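import Pool.Agent.Q195.JetCut.Short

/-!
# Geodesics in the jet space `J^k`, `k ≥ 3`, need not be equi-optimal
-/

namespace Pool.Agent.Results.MP_8ed827_gt.NotEquiOptimal

open Q195.Jet

/-- For every `k ≥ 3` there is a geodesic in `J^k` that is not equi-optimal, that is, the cut time
of the shifted curves `γ_s(t) = γ(t - s)` depends on `s`. -/
theorem result (k : ℕ) (hk : 3 ≤ k) :
    ∃ γ : ℝ → J k, IsGeodesic k γ ∧
      ∃ s s' : ℝ, s ≠ s' ∧ cutTime k (fun t => γ (t - s)) ≠ cutTime k (fun t => γ (t - s')) := by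
  refine ⟨Q195.Jet.γ k, γ_geodesic hk, ?_⟩
  by_contra hcon
  push Not at hcon
  refine not_equiOptimal hk fun s s' => ?_
  by_cases h : s = s'
  · rw [h]
  · exact hcon s s' h

end Pool.Agent.Results.MP_8ed827_gt.NotEquiOptimal
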